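import Mathlib

/-!
Taylor coefficients at the origin through iterated difference quotients, with the estimates
needed for the ball algebra problem.
-/

open Complex Metric Set Filter Topology

namespace Pool.Agent.MP_d61c0a_an.H5

/-- difference quotient at the origin -/
noncomputable def dq (f : ℂ → ℂ) : ℂ → ℂ := dslope f 0

/-- the `k`-th Taylor coefficient at the origin -/
noncomputable def co (k : ℕ) (f : ℂ → ℂ) : ℂ := (dq^[k] f) 0

lemma co_zero (f : ℂ → ℂ) : co 0 f = f 0 := rfl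

lemma co_succ (k : ℕ) (f : ℂ → ℂ) : co (k + 1) f = co k (dq f) := rfl

lemma ball_nhds : ball (0 : ℂ) 1 ∈ 𝓝 (0 : ℂ) := ball_mem_nhds 0 one_pos

lemma zero_mem_ball : (0 : ℂ) ∈ ball (0 : ℂ) 1 := mem_ball_self one_pos

lemma dq_diff {f : ℂ → ℂ} (hf : DifferentiableOn ℂ f (ball 0 1)) :
    DifferentiableOn ℂ (dq f) (ball 0 1) :=
  (Complex.differentiableOn_dslope ball_nhds).2 hf

lemma dq_bound {f : ℂ → ℂ} {M : ℝ} (hf : DifferentiableOn ℂ f (ball 0 1))
    (hM : ∀ μ ∈ ball (0 : ℂ) 1, ‖f μ‖ ≤ M) : ∀ μ ∈ ball (0 : ℂ) 1, ‖dq f μ‖ ≤ 2 * M := by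
  intro μ hμ
  have h : MapsTo f (ball 0 1) (closedBall (f 0) (2 * M)) := by
    intro z hz
    rw [mem_closedBall, dist_eq_norm]
    have h1 := hM z hz
    have h2 := hM 0 zero_mem_ball
    have h3 := norm_sub_le (f z) (f 0)
    linarith
  simpa [dq] using Complex.norm_dslope_le_div_of_mapsTo_ball hf h hμ

lemma mul_dq (f : ℂ → ℂ) (μ : ℂ) : μ * dq f μ = f μ - f 0 := by
  simpa [dq] using sub_smul_dslope f 0 μ

lemma dq_of_ne (f : ℂ → ℂ) {μ : ℂ} (h : μ ≠ 0) : dq f μ = (f μ - f 0) / μ := by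
  rw [← mul_dq f μ]; field_simp

lemma dq_zero (f : ℂ → ℂ) : dq f 0 = deriv f 0 := dslope_same f 0

lemma dq_congr {f g : ℂ → ℂ} (h : EqOn f g (ball 0 1)) : EqOn (dq f) (dq g) (ball 0 1) := by
  intro μ hμ
  rcases eq_or_ne μ 0 with rfl | hne
  · rw [dq_zero, dq_zero]
    exact (h.eventuallyEq_of_mem ball_nhds).deriv_eq
  · rw [dq_of_ne _ hne, dq_of_ne _ hne, h hμ, h zero_mem_ball]

lemma co_congr (k : ℕ) {f g : ℂ → ℂ} (h : EqOn f g (ball 0 1)) : co k f = co k g := by
  induction k generalizing f g with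
  | zero => exact h zero_mem_ball
  | succ k ih => rw [co_succ, co_succ]; exact ih (dq_congr h)

lemma dq_add {f g : ℂ → ℂ} (hf : DifferentiableOn ℂ f (ball 0 1))
    (hg : DifferentiableOn ℂ g (ball 0 1)) : dq (f + g) = dq f + dq g := by
  funext μ
  rcases eq_or_ne μ 0 with rfl | hne
  · simp only [Pi.add_apply, dq_zero]
    exact deriv_add (hf.differentiableAt ball_nhds) (hg.differentiableAt ball_nhds)
  · simp only [Pi.add_apply, dq_of_ne _ hne]; ring

lemma dq_smul (c : ℂ) {f : ℂ → ℂ} (hf : DifferentiableOn ℂ f (ball 0 1)) :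
    dq (c • f) = c • dq f := by
  funext μ
  rcases eq_or_ne μ 0 with rfl | hne
  · simp only [Pi.smul_apply, dq_zero]
    exact deriv_const_smul c (hf.differentiableAt ball_nhds)
  · simp only [Pi.smul_apply, dq_of_ne _ hne, smul_eq_mul]; ring

lemma dq_mul {f g : ℂ → ℂ} (hf : DifferentiableOn ℂ f (ball 0 1))
    (hg : DifferentiableOn ℂ g (ball 0 1)) : dq (f * g) = f 0 • dq g + dq f * g := by
  funext μ
  rcases eq_or_ne μ 0 with rfl | hne
  · simp only [Pi.add_apply, Pi.mul_apply, Pi.smul_apply, dq_zero, smul_eq_mul]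
    rw [deriv_mul (hf.differentiableAt ball_nhds) (hg.differentiableAt ball_nhds)]
    ring
  · simp only [Pi.add_apply, Pi.mul_apply, Pi.smul_apply, dq_of_ne _ hne, smul_eq_mul]
    field_simp
    ring

lemma co_add (k : ℕ) {f g : ℂ → ℂ} (hf : DifferentiableOn ℂ f (ball 0 1))
    (hg : DifferentiableOn ℂ g (ball 0 1)) : co k (f + g) = co k f + co k g := by
  induction k generalizing f g with
  | zero => rfl
  | succ k ih => rw [co_succ, co_succ, co_succ, dq_add hf hg, ih (dq_diff hf) (dq_diff hg)]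

lemma co_smul (k : ℕ) (c : ℂ) {f : ℂ → ℂ} (hf : DifferentiableOn ℂ f (ball 0 1)) :
    co k (c • f) = c * co k f := by
  induction k generalizing f with
  | zero => rfl
  | succ k ih => rw [co_succ, co_succ, dq_smul c hf, ih (dq_diff hf)]

lemma co_bound (k : ℕ) {f : ℂ → ℂ} {M : ℝ} (hf : DifferentiableOn ℂ f (ball 0 1))
    (hM : ∀ μ ∈ ball (0 : ℂ) 1, ‖f μ‖ ≤ M) : ‖co k f‖ ≤ 2 ^ k * M := by
  induction k generalizing f M with
  | zero => simpa [co_zero] using hM 0 zero_mem_ball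
  | succ k ih =>
    rw [co_succ]
    refine (ih (dq_diff hf) (dq_bound hf hM)).trans (le_of_eq ?_)
    ring

lemma co_mul_est (k : ℕ) {f g : ℂ → ℂ} {M ε : ℝ} (hf : DifferentiableOn ℂ f (ball 0 1))
    (hM : ∀ μ ∈ ball (0 : ℂ) 1, ‖f μ‖ ≤ M) (hg : DifferentiableOn ℂ g (ball 0 1))
    (hε : 0 ≤ ε) (hj : ∀ j < k, ‖co j g‖ ≤ ε) :
    ‖co k (f * g) - f 0 * co k g‖ ≤ 4 ^ k * M * ε := by
  induction k generalizing f M with
  | zero =>
    have hM0 : 0 ≤ M := (norm_nonneg _).trans (hM 0 zero_mem_ball)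
    simp only [co_zero, Pi.mul_apply, sub_self, norm_zero]
    positivity
  | succ k ih =>
    have hM0 : 0 ≤ M := (norm_nonneg _).trans (hM 0 zero_mem_ball)
    have h1 : co (k + 1) (f * g) - f 0 * co (k + 1) g = co k (dq f * g) := by
      rw [co_succ, dq_mul hf hg, co_add k ((dq_diff hg).const_smul _) ((dq_diff hf).mul hg),
        co_smul k _ (dq_diff hg), co_succ]
      ring
    rw [h1]
    have h2 := ih (dq_diff hf) (dq_bound hf hM) (fun j hjk => hj j (by omega))
    have h3 : ‖dq f 0 * co k g‖ ≤ 2 * M * ε := by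
      rw [norm_mul]
      exact mul_le_mul (dq_bound hf hM 0 zero_mem_ball) (hj k (by omega)) (norm_nonneg _)
        (by positivity)
    have h4 : ‖co k (dq f * g)‖ ≤ ‖co k (dq f * g) - dq f 0 * co k g‖ + ‖dq f 0 * co k g‖ := by
      simpa using norm_add_le (co k (dq f * g) - dq f 0 * co k g) (dq f 0 * co k g)
    have h5 : (1 : ℝ) ≤ 4 ^ k := one_le_pow₀ (by norm_num)
    have h6 : 0 ≤ M * ε := mul_nonneg hM0 hε
    have h7 : (4 : ℝ) ^ (k + 1) * M * ε = 4 * (4 ^ k * (M * ε)) := by ring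
    have h8 : M * ε ≤ 4 ^ k * (M * ε) := le_mul_of_one_le_left h6 h5
    rw [h7]
    nlinarith

lemma co_zero_fun (k : ℕ) : co k (fun _ => (0 : ℂ)) = 0 := by
  have h := co_bound k (f := fun _ => (0 : ℂ)) (M := 0) (differentiableOn_const _) (by simp)
  simpa using h

lemma co_monomial (k j : ℕ) (c : ℂ) :
    co k (fun μ => μ ^ j * c) = if k = j then c else 0 := by
  induction k generalizing j with
  | zero =>
    rcases j with _ | j
    · simp [co_zero]
    · simp [co_zero]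
  | succ k ih =>
    rw [co_succ]
    rcases j with _ | j
    · have : dq (fun μ => μ ^ 0 * c) = fun _ => 0 := by
        funext μ
        rcases eq_or_ne μ 0 with rfl | hne
        · simp [dq_zero]
        · simp [dq_of_ne _ hne]
      rw [this, co_zero_fun]; simp
    · have : dq (fun μ => μ ^ (j + 1) * c) = fun μ => μ ^ j * c := by
        funext μ
        rcases eq_or_ne μ 0 with rfl | hne
        · rw [dq_zero]
          have := ((hasDerivAt_pow (j + 1) (0 : ℂ)).mul_const c).deriv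
          rw [this]
          rcases j with _ | j <;> simp
        · rw [dq_of_ne _ hne]
          field_simp
          simp
          ring
      rw [this, ih]; simp

/-- the open half plane `Re s > -1` -/
def HP : Set ℂ := {s | -1 < s.re}

lemma isOpen_HP : IsOpen HP := isOpen_lt continuous_const Complex.continuous_re

/-- separately holomorphic functions on `HP × disc` bounded by `M` -/
structure Cl (M : ℝ) (F : ℂ → ℂ → ℂ) : Prop where
  d1 : ∀ μ ∈ ball (0 : ℂ) 1, DifferentiableOn ℂ (fun s => F s μ) HP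
  d2 : ∀ s ∈ HP, DifferentiableOn ℂ (F s) (ball 0 1)
  bd : ∀ s ∈ HP, ∀ μ ∈ ball (0 : ℂ) 1, ‖F s μ‖ ≤ M

lemma Cl.dq {M : ℝ} {F : ℂ → ℂ → ℂ} (h : Cl M F) : Cl (2 * M) (fun s => dq (F s)) := by
  have hne : ∀ μ ∈ ball (0 : ℂ) 1, μ ≠ 0 → DifferentiableOn ℂ (fun s => H5.dq (F s) μ) HP := by
    intro μ hμ hne
    simp only [dq_of_ne _ hne]
    exact ((h.d1 μ hμ).sub (h.d1 0 zero_mem_ball)).div_const μ
  refine ⟨?_, fun s hs => dq_diff (h.d2 s hs), fun s hs => dq_bound (h.d2 s hs) (h.bd s hs)⟩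
  intro μ hμ
  rcases eq_or_ne μ 0 with rfl | hμ0
  · have hlim : TendstoUniformlyOn (fun (μ : ℂ) (s : ℂ) => H5.dq (F s) μ)
        (fun s => H5.dq (F s) 0) (𝓝[≠] 0) HP := by
      rw [Metric.tendstoUniformlyOn_iff]
      intro ε hε
      have hc : ContinuousAt (fun μ : ℂ => ‖μ‖ * (2 * (2 * M))) 0 := by fun_prop
      have hlt : ∀ᶠ μ in 𝓝 (0 : ℂ), ‖μ‖ * (2 * (2 * M)) < ε :=
        hc.eventually_lt continuousAt_const (by simpa using hε)
      filter_upwards [nhdsWithin_le_nhds hlt, nhdsWithin_le_nhds ball_nhds] with μ h1 h2 s hs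
      rw [dist_comm, dist_eq_norm, ← mul_dq (H5.dq (F s)) μ, norm_mul]
      refine lt_of_le_of_lt ?_ h1
      exact mul_le_mul_of_nonneg_left
        (dq_bound (dq_diff (h.d2 s hs)) (dq_bound (h.d2 s hs) (h.bd s hs)) μ h2) (norm_nonneg _)
    refine hlim.tendstoLocallyUniformlyOn.differentiableOn ?_ isOpen_HP
    filter_upwards [self_mem_nhdsWithin, nhdsWithin_le_nhds ball_nhds] with μ h1 h2
    exact hne μ h2 h1
  · exact hne μ hμ hμ0

lemma Cl.co_diff (k : ℕ) {M : ℝ} {F : ℂ → ℂ → ℂ} (h : Cl M F) :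
    DifferentiableOn ℂ (fun s => co k (F s)) HP := by
  induction k generalizing M F with
  | zero => exact h.d1 0 zero_mem_ball
  | succ k ih => exact ih h.dq

lemma Cl.co_bound (k : ℕ) {M : ℝ} {F : ℂ → ℂ → ℂ} (h : Cl M F) {s : ℂ} (hs : s ∈ HP) :
    ‖co k (F s)‖ ≤ 2 ^ k * M :=
  H5.co_bound k (h.d2 s hs) (h.bd s hs)

end Pool.Agent.MP_d61c0a_an.H5
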