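import Mathlib
import Pool.Agent.MP_d61c0a_an.H5.Jet

/-!
The abstract argument: decay rates on a half plane and the staircase ideal.
-/

open Complex Metric Set Filter Topology Asymptotics

namespace Pool.Agent.MP_d61c0a_an.H5

/-- `φ` decays at least like `exp (-b x)` along the positive real axis -/
def Dec (b : ℝ) (φ : ℂ → ℂ) : Prop :=
  (fun x : ℝ => φ x) =O[atTop] (fun x : ℝ => Real.exp (-b * x))

lemma mem_HP {s : ℂ} (hs : 0 ≤ s.re) : s ∈ HP := by
  simp only [HP, mem_ofPred_eq]; linarith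

lemma Dec.of_le {b C : ℝ} {φ : ℂ → ℂ} (h : ∀ x : ℝ, 0 < x → ‖φ x‖ ≤ C * Real.exp (-b * x)) :
    Dec b φ := by
  refine IsBigO.of_bound C ?_
  filter_upwards [eventually_gt_atTop 0] with x hx
  simpa using h x hx

lemma Dec.add {b : ℝ} {φ ψ : ℂ → ℂ} (h1 : Dec b φ) (h2 : Dec b ψ) :
    Dec b (fun s => φ s + ψ s) := IsBigO.add h1 h2

lemma Dec.mul {b b' : ℝ} {φ ψ : ℂ → ℂ} (h1 : Dec b φ) (h2 : Dec b' ψ) :
    Dec (b + b') (fun s => φ s * ψ s) := by
  refine (IsBigO.mul h1 h2).congr_right (fun x => ?_)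
  rw [← Real.exp_add]; congr 1; ring

lemma Dec.sum {ι : Type*} (t : Finset ι) {b : ℝ} {φ : ι → ℂ → ℂ} (h : ∀ i ∈ t, Dec b (φ i)) :
    Dec b (fun s => ∑ i ∈ t, φ i s) := IsBigO.fun_sum h

lemma Dec.congr {b : ℝ} {φ ψ : ℂ → ℂ} (h1 : Dec b φ) (h : ∀ x : ℝ, 0 < x → φ x = ψ x) :
    Dec b ψ := by
  refine IsBigO.congr' h1 ?_ EventuallyEq.rfl
  filter_upwards [eventually_gt_atTop 0] with x hx using h x hx

lemma dec_exp (a : ℝ) : Dec (-a) (fun s => Complex.exp (a * s)) := by
  refine Dec.of_le (C := 1) (fun x _ => ?_)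
  rw [Complex.norm_exp]
  simp

lemma dec_bdd {φ : ℂ → ℂ} {B : ℝ} (h : ∀ s : ℂ, 0 ≤ s.re → ‖φ s‖ ≤ B) : Dec 0 φ := by
  refine Dec.of_le (C := B) (fun x hx => ?_)
  simpa using h x (by simpa using hx.le)

lemma dec_poly (k : ℕ) {δ : ℝ} (hδ : 0 < δ) : Dec (-δ) (fun s => (s + 3) ^ k) := by
  refine Dec.of_le (C := (k.factorial : ℝ) / δ ^ k * Real.exp (3 * δ)) (fun x hx => ?_)
  have h1 : ‖((x : ℂ) + 3) ^ k‖ = (x + 3) ^ k := by
    rw [norm_pow]
    congr 1
    have : ((x : ℂ) + 3) = ((x + 3 : ℝ) : ℂ) := by push_cast; ring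
    rw [this, Complex.norm_real, Real.norm_of_nonneg (by linarith)]
  rw [h1]
  have h2 := Real.pow_div_factorial_le_exp (δ * (x + 3)) (by positivity) k
  have h3 : (0 : ℝ) < k.factorial := by exact_mod_cast k.factorial_pos
  rw [div_le_iff₀ h3, mul_pow] at h2
  have h4 : Real.exp (δ * (x + 3)) = Real.exp (3 * δ) * Real.exp (- -δ * x) := by
    rw [← Real.exp_add]; congr 1; ring
  have h5 : (0 : ℝ) < δ ^ k := by positivity
  calc (x + 3) ^ k = (δ ^ k * (x + 3) ^ k) / δ ^ k := by field_simp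
    _ ≤ (Real.exp (δ * (x + 3)) * k.factorial) / δ ^ k := by gcongr
    _ = _ := by rw [h4]; ring

/-- Phragmen-Lindelof: decay along the axis gives decay on the half plane, with the constant
taken from the imaginary axis. -/
lemma PL {φ : ℂ → ℂ} (hd : DifferentiableOn ℂ φ HP) {B b : ℝ}
    (hB : ∀ s : ℂ, 0 ≤ s.re → ‖φ s‖ ≤ B) (hx : Dec b φ) {M : ℝ}
    (hi : ∀ y : ℝ, ‖φ (y * I)‖ ≤ M) {s : ℂ} (hs : 0 ≤ s.re) :
    ‖φ s‖ ≤ M * Real.exp (-b * s.re) := by
  have hB0 : 0 ≤ B := (norm_nonneg _).trans (hB 0 (by simp))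
  have key : ‖Complex.exp (b * s) * φ s‖ ≤ M := by
    refine PhragmenLindelof.right_half_plane_of_bounded_on_real
      (f := fun s => Complex.exp (b * s) * φ s) ?_ ⟨1, by norm_num, |b|, ?_⟩ ?_ ?_ hs
    · apply DifferentiableOn.diffContOnCl
      rw [Complex.closure_setOfPred_lt_re]
      refine DifferentiableOn.mul (by fun_prop) (hd.mono (fun z hz => mem_HP hz))
    · refine IsBigO.of_bound B ?_
      refine Filter.Eventually.filter_mono inf_le_right ?_
      refine Filter.eventually_principal.2 (fun z hz => ?_)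
      have hz' : 0 ≤ z.re := le_of_lt hz
      rw [norm_mul, Complex.norm_exp, Real.norm_of_nonneg (Real.exp_pos _).le, mul_comm,
        Real.rpow_one]
      refine mul_le_mul (hB z hz') (Real.exp_le_exp.2 ?_) (Real.exp_pos _).le hB0
      have : ((b : ℂ) * z).re ≤ ‖(b : ℂ) * z‖ := Complex.re_le_norm _
      simpa using this
    · have h := (dec_exp b).mul hx
      simp only [Dec, neg_add_cancel, neg_zero, zero_mul, Real.exp_zero] at h
      exact (isBigO_one_iff ℝ).1 h
    · intro y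
      rw [norm_mul, Complex.norm_exp]
      simpa using hi y
  rw [norm_mul, Complex.norm_exp] at key
  have h1 : ((b : ℂ) * s).re = b * s.re := by simp
  rw [h1] at key
  have h2 : Real.exp (-b * s.re) * Real.exp (b * s.re) = 1 := by
    rw [← Real.exp_add]; simp
  calc ‖φ s‖ = Real.exp (-b * s.re) * (Real.exp (b * s.re) * ‖φ s‖) := by
        rw [← mul_assoc, h2, one_mul]
    _ ≤ Real.exp (-b * s.re) * M := mul_le_mul_of_nonneg_left key (Real.exp_pos _).le
    _ = _ := mul_comm _ _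

/-- bounded holomorphic functions -/
def BH : Subring (ℂ → ℂ) where
  carrier := {φ | DifferentiableOn ℂ φ HP ∧ ∃ B : ℝ, ∀ s : ℂ, 0 ≤ s.re → ‖φ s‖ ≤ B}
  mul_mem' := by
    rintro φ ψ ⟨h1, B1, h2⟩ ⟨h3, B2, h4⟩
    refine ⟨h1.mul h3, B1 * B2, fun s hs => ?_⟩
    rw [Pi.mul_apply, norm_mul]
    exact mul_le_mul (h2 s hs) (h4 s hs) (norm_nonneg _) ((norm_nonneg _).trans (h2 s hs))
  one_mem' := ⟨differentiableOn_const _, 1, fun s _ => by simp⟩
  add_mem' := by
    rintro φ ψ ⟨h1, B1, h2⟩ ⟨h3, B2, h4⟩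
    refine ⟨h1.add h3, B1 + B2, fun s hs => ?_⟩
    exact (norm_add_le _ _).trans (add_le_add (h2 s hs) (h4 s hs))
  zero_mem' := ⟨differentiableOn_const _, 0, fun s _ => by simp⟩
  neg_mem' := by
    rintro φ ⟨h1, B1, h2⟩
    exact ⟨h1.neg, B1, fun s hs => by simpa using h2 s hs⟩

lemma exists_orth {R S : Type*} [CommRing R] [CommRing S] [Nontrivial S] (ρ : R →+* S) (m : ℕ)
    (v : Fin m → Fin (m + 1) → R) :
    ∃ c : Fin (m + 1) → R, (∃ k, ρ (c k) ≠ 0) ∧ ∀ i, ρ (∑ k, c k * v i k) = 0 := by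
  have hS : StrongRankCondition ρ.range := inferInstance
  rw [strongRankCondition_iff_succ] at hS
  have h := hS m (Matrix.mulVecLin (Matrix.of fun i k => ρ.rangeRestrict (v i k)))
  rw [← LinearMap.ker_eq_bot] at h
  obtain ⟨c', hc', hne⟩ := Submodule.exists_mem_ne_zero_of_ne_bot h
  choose c hc using fun k => ρ.rangeRestrict_surjective (c' k)
  refine ⟨c, ?_, fun i => ?_⟩
  · by_contra hcon
    push Not at hcon
    apply hne
    funext k
    rw [← hc k]
    exact Subtype.ext (hcon k)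
  · have h1 := congrFun (LinearMap.mem_ker.1 hc') i
    simp only [Matrix.mulVecLin_apply, Matrix.mulVec, dotProduct, Matrix.of_apply,
      Pi.zero_apply] at h1
    have h2 : ρ.rangeRestrict (∑ k, c k * v i k) = 0 := by
      rw [map_sum, ← h1]
      refine Finset.sum_congr rfl (fun k _ => ?_)
      rw [map_mul, hc k, mul_comm]
    exact congrArg Subtype.val h2

lemma exists_orth_fun (m : ℕ) (v : Fin m → Fin (m + 1) → ℂ → ℂ) (hv : ∀ i k, v i k ∈ BH) :
    ∃ c : Fin (m + 1) → ℂ → ℂ, (∀ k, c k ∈ BH) ∧ (∃ k s, 0 < s.re ∧ c k s ≠ 0) ∧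
      ∀ i s, 0 < s.re → ∑ k, c k s * v i k s = 0 := by
  let ρ : BH →+* ({s : ℂ // 0 < s.re} → ℂ) :=
    (RingHom.pi (fun s : {s : ℂ // 0 < s.re} => Pi.evalRingHom (fun _ : ℂ => ℂ) s.1)).comp
      BH.subtype
  have : Nonempty {s : ℂ // 0 < s.re} := ⟨⟨1, by simp⟩⟩
  obtain ⟨c, ⟨k, hk⟩, hc⟩ := exists_orth ρ m (fun i k => ⟨v i k, hv i k⟩)
  refine ⟨fun k => (c k).1, fun k => (c k).2, ?_, fun i s hs => ?_⟩
  · by_contra hcon
    push Not at hcon
    exact hk (funext fun s => hcon k s.1 s.2)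
  · have := congrFun (hc i) ⟨s, hs⟩
    rw [map_sum] at this
    simpa [ρ] using this

/-- the decay exponents -/
noncomputable def ex (k : ℕ) : ℝ := (1 / 2) ^ k

lemma ex_pos (k : ℕ) : 0 < ex k := by unfold ex; positivity

lemma ex_anti {j k : ℕ} (h : j ≤ k) : ex k ≤ ex j :=
  pow_le_pow_of_le_one (by norm_num) (by norm_num) h

lemma ex_gap {j k m : ℕ} (h : j < k) (hk : k ≤ m) : ex k + ex m ≤ ex j := by
  have h1 := ex_anti hk
  have h2 : ex k ≤ ex (j + 1) := ex_anti h
  have h3 : ex (j + 1) = ex j / 2 := by unfold ex; ring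
  linarith

section abs

variable {A : Type*} [NormedCommRing A] (T : A →ₙ+* (ℂ → ℂ → ℂ)) (hT : ∀ f, Cl ‖f‖ (T f))

include hT

lemma co_T_add (k : ℕ) (f g : A) {s : ℂ} (hs : s ∈ HP) :
    co k (T (f + g) s) = co k (T f s) + co k (T g s) := by
  rw [map_add, Pi.add_apply, co_add k ((hT f).d2 s hs) ((hT g).d2 s hs)]

lemma co_T_zero (k : ℕ) (s : ℂ) : co k (T 0 s) = 0 := by
  rw [map_zero]; exact co_zero_fun k

lemma co_T_cont (k : ℕ) {s : ℂ} (hs : s ∈ HP) : Continuous (fun f => co k (T f s)) := by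
  let φ : A →+ ℂ := AddMonoidHom.mk' (fun f => co k (T f s)) (fun f g => co_T_add T hT k f g hs)
  exact AddMonoidHomClass.continuous_of_bound φ (2 ^ k) (fun f => (hT f).co_bound k hs)

lemma good_bound {k : ℕ} {f : A} (h : Dec (ex k) (fun s => co k (T f s))) {s : ℂ}
    (hs : 0 ≤ s.re) : ‖co k (T f s)‖ ≤ 2 ^ k * ‖f‖ * Real.exp (-ex k * s.re) :=
  PL ((hT f).co_diff k) (fun _ hs => (hT f).co_bound k (mem_HP hs)) h
    (fun y => (hT f).co_bound k (mem_HP (by simp))) hs

/-- the error term of the product rule decays faster -/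
lemma err_dec {k : ℕ} {f : A} (g : A) (h : ∀ j, Dec (ex j) (fun s => co j (T f s))) {b : ℝ}
    (hb : ∀ j < k, b ≤ ex j) :
    Dec b (fun s => co k (T (g * f) s) - T g s 0 * co k (T f s)) := by
  refine Dec.of_le (C := 4 ^ k * ‖g‖ * (2 ^ k * ‖f‖)) (fun x hx => ?_)
  have hx' : 0 ≤ (x : ℂ).re := by simpa using hx.le
  have hs := mem_HP hx'
  rw [map_mul, Pi.mul_apply, mul_assoc (4 ^ k * ‖g‖)]
  refine co_mul_est k ((hT g).d2 _ hs) ((hT g).bd _ hs) ((hT f).d2 _ hs) (by positivity) ?_
  intro j hj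
  refine (good_bound T hT (h j) hx').trans ?_
  have h1 : (2 : ℝ) ^ j ≤ 2 ^ k := pow_le_pow_right₀ (by norm_num) hj.le
  have h2 : Real.exp (-ex j * (x : ℂ).re) ≤ Real.exp (-b * x) := by
    rw [Complex.ofReal_re]
    refine Real.exp_le_exp.2 ?_
    have := hb j hj
    nlinarith
  gcongr

lemma dec_T0 (g : A) : Dec 0 (fun s => T g s 0) :=
  dec_bdd (fun s hs => (hT g).bd s (mem_HP hs) 0 zero_mem_ball)

/-- the staircase ideal -/
def J0 : Ideal A where
  carrier := {f | ∀ k, Dec (ex k) (fun s => co k (T f s))}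
  add_mem' := by
    intro f g hf hg k
    exact ((hf k).add (hg k)).congr
      (fun x hx => (co_T_add T hT k f g (mem_HP (by simpa using hx.le))).symm)
  zero_mem' := by
    intro k
    refine Dec.of_le (C := 0) (fun x _ => ?_)
    rw [co_T_zero T hT]; simp
  smul_mem' := by
    intro g f hf k
    have h1 := err_dec T hT (k := k) g hf (b := ex k) (fun j hj => ex_anti hj.le)
    have h2 := (dec_T0 T hT g).mul (hf k)
    rw [zero_add] at h2
    exact (h1.add h2).congr (fun x _ => by simp)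

lemma mem_J0 {f : A} : f ∈ J0 T hT ↔ ∀ k, Dec (ex k) (fun s => co k (T f s)) := Iff.rfl

lemma isClosed_J0 : IsClosed (J0 T hT : Set A) := by
  have : (J0 T hT : Set A) = ⋂ k : ℕ, ⋂ x : ℝ, ⋂ _ : 0 < x,
      {f | ‖co k (T f x)‖ ≤ 2 ^ k * ‖f‖ * Real.exp (-ex k * x)} := by
    ext f
    simp only [SetLike.mem_coe, mem_J0, mem_iInter, mem_ofPred_eq]
    constructor
    · intro h k x hx
      simpa using good_bound T hT (h k) (s := x) (by simpa using hx.le)
    · intro h k
      exact Dec.of_le (h k)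
  rw [this]
  refine isClosed_iInter fun k => isClosed_iInter fun x => isClosed_iInter fun hx => ?_
  refine isClosed_le (co_T_cont T hT k (mem_HP (by simpa using hx.le))).norm (by fun_prop)

lemma v_bound {k : ℕ} {f : A} (hf : f ∈ J0 T hT) {s : ℂ} (hs : 0 ≤ s.re) :
    ‖Complex.exp (ex k * s) * co k (T f s)‖ ≤ 2 ^ k * ‖f‖ := by
  rw [norm_mul, Complex.norm_exp]
  have h1 : ((ex k : ℂ) * s).re = ex k * s.re := by simp
  rw [h1]
  have h2 : Real.exp (ex k * s.re) * Real.exp (-ex k * s.re) = 1 := by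
    rw [← Real.exp_add]; simp
  calc _ ≤ Real.exp (ex k * s.re) * (2 ^ k * ‖f‖ * Real.exp (-ex k * s.re)) :=
        mul_le_mul_of_nonneg_left (good_bound T hT (hf k) hs) (Real.exp_pos _).le
    _ = 2 ^ k * ‖f‖ * (Real.exp (ex k * s.re) * Real.exp (-ex k * s.re)) := by ring
    _ = _ := by rw [h2, mul_one]

lemma v_mem {k : ℕ} {f : A} (hf : f ∈ J0 T hT) :
    (fun s => Complex.exp (ex k * s) * co k (T f s)) ∈ BH :=
  ⟨DifferentiableOn.mul (by fun_prop) ((hT f).co_diff k), _, fun _ hs => v_bound T hT hf hs⟩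

theorem abs_main (u : ℕ → A) (κ : ℕ → ℂ) (hκ : ∀ j, κ j ≠ 0)
    (hu : ∀ j, ∀ s ∈ HP, ∀ μ ∈ ball (0 : ℂ) 1,
      T (u j) s μ = μ ^ j * (κ j * Complex.exp (-(ex j * s)) / (s + 3) ^ (j + 1))) :
    (∀ j, u j ∈ J0 T hT) ∧
      ∀ I : Ideal A, I.FG → I ≤ J0 T hT → ¬ ∀ j, u j ∈ closure (I : Set A) := by
  have hco : ∀ j k, ∀ s ∈ HP, co k (T (u j) s) =
      if k = j then κ j * Complex.exp (-(ex j * s)) / (s + 3) ^ (j + 1) else 0 := by
    intro j k s hs
    rw [← co_monomial]
    exact co_congr k (fun μ hμ => hu j s hs μ hμ)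
  refine ⟨fun j k => ?_, fun I hI hIJ hcl => ?_⟩
  · refine Dec.of_le (C := ‖κ j‖) (fun x hx => ?_)
    rw [hco j k x (mem_HP (by simpa using hx.le))]
    split_ifs with h
    · subst h
      rw [norm_div, norm_mul, Complex.norm_exp, norm_pow]
      have h1 : (-((ex k : ℂ) * (x : ℂ))).re = -ex k * x := by simp
      rw [h1]
      refine div_le_self (by positivity) (one_le_pow₀ ?_)
      have : ((x : ℂ) + 3).re ≤ ‖(x : ℂ) + 3‖ := Complex.re_le_norm _
      simp at this
      linarith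
    · simp only [norm_zero]; positivity
  · obtain ⟨m, f, hf⟩ := Submodule.fg_iff_exists_fin_generating_family.1 hI
    have hfI : ∀ i, f i ∈ I := fun i => hf ▸ Submodule.subset_span (mem_range_self i)
    obtain ⟨c, hcB, ⟨k0, s0, hs0, hne⟩, horth⟩ := exists_orth_fun m
      (fun i k s => Complex.exp (ex k * s) * co k (T (f i) s)) (fun i k => v_mem T hT (hIJ (hfI i)))
    choose Bc hBc using fun k => (hcB k).2
    have hBc0 : ∀ k, 0 ≤ Bc k := fun k => (norm_nonneg _).trans (hBc k 0 (by simp))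
    set δ : ℝ := ex m / 2 with hδ
    have hδ0 : 0 < δ := by have := ex_pos m; positivity
    let L : A → ℂ → ℂ := fun g s =>
      ∑ k : Fin (m + 1), c k s * (Complex.exp (ex k * s) * co k (T g s))
    have step : ∀ b : ℝ, (∀ k, Dec b (c k)) → ∀ k, Dec (b + δ) (c k) := by
      intro b hb
      have hQ : ∀ g ∈ I, Dec (b + ex m) (L g) := by
        intro g hg
        rw [← hf] at hg
        induction hg using Submodule.span_induction with
        | mem x hx =>
          obtain ⟨i, rfl⟩ := hx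
          refine Dec.of_le (C := 0) (fun x hx => ?_)
          have := horth i x (by simpa using hx)
          simp only [L]
          rw [this]; simp
        | zero =>
          refine Dec.of_le (C := 0) (fun x hx => ?_)
          simp only [L, co_T_zero T hT]; simp
        | add x y _ _ h1 h2 =>
          refine (h1.add h2).congr (fun t ht => ?_)
          simp only [L]
          rw [← Finset.sum_add_distrib]
          refine Finset.sum_congr rfl (fun k _ => ?_)
          rw [co_T_add T hT k x y (mem_HP (by simpa using ht.le))]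
          ring
        | smul g x hx h1 =>
          have hxJ : x ∈ J0 T hT := hIJ (hf ▸ hx)
          have h2 := (dec_T0 T hT g).mul h1
          rw [zero_add] at h2
          have h3 : Dec (b + ex m) (fun s => ∑ k : Fin (m + 1), c k s * (Complex.exp (ex k * s) *
              (co k (T (g * x) s) - T g s 0 * co k (T x s)))) := by
            refine Dec.sum _ (fun k _ => ?_)
            have h4 := err_dec T hT (k := k) g hxJ (b := ex k + ex m)
              (fun j hj => ex_gap hj (Nat.lt_succ_iff.1 k.2))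
            have h5 := (hb k).mul ((dec_exp (ex k)).mul h4)
            have h6 : b + (-ex k + (ex k + ex m)) = b + ex m := by ring
            rwa [h6] at h5
          refine (h2.add h3).congr (fun t _ => ?_)
          simp only [L, smul_eq_mul]
          rw [Finset.mul_sum, ← Finset.sum_add_distrib]
          refine Finset.sum_congr rfl (fun k _ => ?_)
          ring
      have hLb : ∀ g ∈ J0 T hT, ∀ s : ℂ, 0 ≤ s.re →
          ‖L g s‖ ≤ (∑ k : Fin (m + 1), Bc k * 2 ^ (k : ℕ)) * ‖g‖ := by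
        intro g hg s hs
        simp only [L]
        rw [Finset.sum_mul]
        refine (norm_sum_le _ _).trans (Finset.sum_le_sum fun k _ => ?_)
        rw [norm_mul, mul_assoc]
        exact mul_le_mul (hBc k s hs) (v_bound T hT hg hs) (norm_nonneg _) (hBc0 k)
      have hLd : ∀ g, DifferentiableOn ℂ (L g) HP := by
        intro g
        refine DifferentiableOn.fun_sum (fun k _ => ?_)
        exact (hcB k).1.mul (DifferentiableOn.mul (by fun_prop) ((hT g).co_diff k))
      have hcl2 : ∀ g ∈ closure (I : Set A), ∀ x : ℝ, 0 < x → ‖L g x‖ ≤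
          (∑ k : Fin (m + 1), Bc k * 2 ^ (k : ℕ)) * ‖g‖ * Real.exp (-(b + ex m) * x) := by
        intro g hg x hx
        have hx' : 0 ≤ (x : ℂ).re := by simpa using hx.le
        have hclosed : IsClosed {g : A | ‖L g x‖ ≤
            (∑ k : Fin (m + 1), Bc k * 2 ^ (k : ℕ)) * ‖g‖ * Real.exp (-(b + ex m) * x)} := by
          refine isClosed_le (Continuous.norm ?_) (by fun_prop)
          refine continuous_finsetSum _ (fun k _ => ?_)
          exact continuous_const.mul (continuous_const.mul (co_T_cont T hT k (mem_HP hx')))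
        refine closure_minimal (fun g hg => ?_) hclosed hg
        simpa using PL (hLd g) (hLb g (hIJ hg)) (hQ g hg)
          (fun y => hLb g (hIJ hg) _ (by simp)) hx'
      intro k
      have h1 : Dec (b + ex m) (L (u k)) := Dec.of_le (hcl2 _ (hcl k))
      have h2 := (h1.mul (dec_poly (k + 1) hδ0)).mul
        (dec_bdd (φ := fun _ => (κ k)⁻¹) (B := ‖(κ k)⁻¹‖) (fun _ _ => le_rfl))
      have h3 : b + ex m + -δ + 0 = b + δ := by rw [hδ]; ring
      rw [h3] at h2
      refine h2.congr (fun x hx => ?_)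
      have hs : (x : ℂ) ∈ HP := mem_HP (by simpa using hx.le)
      have h4 : L (u k) x = c k x * (κ k / ((x : ℂ) + 3) ^ ((k : ℕ) + 1)) := by
        simp only [L]
        rw [Finset.sum_eq_single k]
        · rw [hco _ _ _ hs, if_pos rfl, Complex.exp_neg]
          have := Complex.exp_ne_zero ((ex k : ℂ) * x)
          field_simp
        · intro j _ hj
          rw [hco _ _ _ hs, if_neg (fun h => hj (Fin.ext h))]; simp
        · simp
      have h5 : ((x : ℂ) + 3) ≠ 0 := by
        intro h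
        have := congrArg Complex.re h
        simp at this
        linarith
      have h6 := hκ k
      rw [h4]
      field_simp
    have hall : ∀ j : ℕ, ∀ k, Dec (j * δ) (c k) := by
      intro j
      induction j with
      | zero => intro k; simpa using dec_bdd (hBc k)
      | succ j ih =>
        have := step _ ih
        intro k
        have h1 : ((j + 1 : ℕ) : ℝ) * δ = j * δ + δ := by push_cast; ring
        rw [h1]; exact this k
    have hbound : ∀ j : ℕ, ‖c k0 s0‖ ≤ Bc k0 * Real.exp (-(δ * s0.re)) ^ j := by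
      intro j
      have := PL (hcB k0).1 (hBc k0) (hall j k0) (fun y => hBc k0 _ (by simp)) hs0.le
      rw [← Real.exp_nat_mul]
      convert this using 3
      ring
    have hlim : Tendsto (fun j : ℕ => Bc k0 * Real.exp (-(δ * s0.re)) ^ j) atTop
        (𝓝 (Bc k0 * 0)) := by
      refine Tendsto.const_mul _ (tendsto_pow_atTop_nhds_zero_of_lt_one (Real.exp_pos _).le ?_)
      rw [Real.exp_lt_one_iff]
      have := mul_pos hδ0 hs0
      linarith
    have := ge_of_tendsto' hlim hbound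
    rw [mul_zero] at this
    exact hne (norm_le_zero_iff.1 this)

end abs

end Pool.Agent.MP_d61c0a_an.H5
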