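import Mathlib
import Pool.Agent.MP_d61c0a_an.H5.Abs

/-!
The concrete objects on the closed unit ball.
-/

open Complex Metric Set Filter Topology

namespace Pool.Agent.MP_d61c0a_an.H5

/-- the function `(1 - z) exp (-a (1 + z) / (1 - z))` -/
noncomputable def sing (a : ℝ) (z : ℂ) : ℂ := (1 - z) * Complex.exp (-(a * ((1 + z) / (1 - z))))

lemma re_nonneg_of_norm_le {z : ℂ} (hz : ‖z‖ ≤ 1) : 0 ≤ ((1 + z) / (1 - z)).re := by
  rw [Complex.div_re, ← add_div]
  refine div_nonneg ?_ (Complex.normSq_nonneg _)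
  have h1 : ‖z‖ ^ 2 ≤ 1 := by nlinarith [norm_nonneg z]
  rw [Complex.sq_norm, Complex.normSq_apply] at h1
  simp only [add_re, one_re, sub_re, add_im, one_im, sub_im]
  nlinarith

lemma sing_norm_le {a : ℝ} (ha : 0 ≤ a) {z : ℂ} (hz : ‖z‖ ≤ 1) : ‖sing a z‖ ≤ ‖1 - z‖ := by
  rw [sing, norm_mul, Complex.norm_exp]
  refine mul_le_of_le_one_right (norm_nonneg _) (Real.exp_le_one_iff.2 ?_)
  have := mul_nonneg ha (re_nonneg_of_norm_le hz)
  simpa using this

lemma sing_diff (a : ℝ) {z : ℂ} (hz : z ≠ 1) : DifferentiableAt ℂ (sing a) z := by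
  have h : (1 : ℂ) - z ≠ 0 := sub_ne_zero.2 hz.symm
  unfold sing
  fun_prop (disch := exact h)

lemma sing_contOn {a : ℝ} (ha : 0 ≤ a) : ContinuousOn (sing a) (closedBall 0 1) := by
  intro z _
  rcases eq_or_ne z 1 with rfl | hne
  · have h0 : sing a 1 = 0 := by simp [sing]
    rw [ContinuousWithinAt, h0]
    refine squeeze_zero_norm' (a := fun z : ℂ => ‖1 - z‖) ?_ ?_
    · filter_upwards [self_mem_nhdsWithin] with w hw
      exact sing_norm_le ha (by simpa using hw)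
    · have : Tendsto (fun z : ℂ => ‖1 - z‖) (𝓝 1) (𝓝 ‖(1 : ℂ) - 1‖) :=
        (by fun_prop : Continuous fun z : ℂ => ‖1 - z‖).tendsto 1
      simpa using this.mono_left nhdsWithin_le_nhds
  · exact (sing_diff a hne).continuousAt.continuousWithinAt

lemma sing_eq_zero {a : ℝ} {z : ℂ} : sing a z = 0 ↔ z = 1 := by
  rw [sing, mul_eq_zero, sub_eq_zero, or_iff_left (Complex.exp_ne_zero _), eq_comm]

section

variable {n : ℕ} (i0 i1 : Fin n)

/-- parametrisation of a part of the ball by half plane times disc -/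
noncomputable def psi (s μ : ℂ) : EuclideanSpace ℂ (Fin n) :=
  ((s + 1) / (s + 3)) • EuclideanSpace.single i0 (1 : ℂ) +
    (2 * μ / (s + 3)) • EuclideanSpace.single i1 (1 : ℂ)

lemma add_three_ne {s : ℂ} (hs : s ∈ HP) : s + 3 ≠ 0 := by
  intro h
  have h1 := congrArg Complex.re h
  have h2 : -1 < s.re := hs
  simp at h1
  linarith

variable {i0 i1}

lemma psi_i0 (h : i0 ≠ i1) (s μ : ℂ) : psi i0 i1 s μ i0 = (s + 1) / (s + 3) := by
  simp [psi, h]

lemma psi_i1 (h : i0 ≠ i1) (s μ : ℂ) : psi i0 i1 s μ i1 = 2 * μ / (s + 3) := by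
  simp [psi, h.symm]

lemma psi_mem (h : i0 ≠ i1) {s μ : ℂ} (hs : s ∈ HP) (hμ : μ ∈ ball (0 : ℂ) 1) :
    psi i0 i1 s μ ∈ ball (0 : EuclideanSpace ℂ (Fin n)) 1 := by
  have h3 := add_three_ne hs
  have hin : inner ℂ (((s + 1) / (s + 3)) • EuclideanSpace.single i0 (1 : ℂ))
      ((2 * μ / (s + 3)) • EuclideanSpace.single i1 (1 : ℂ)) = 0 := by
    rw [inner_smul_left, inner_smul_right, EuclideanSpace.inner_single_left]
    simp [h]
  have h1 := norm_add_sq_eq_norm_sq_add_norm_sq_of_inner_eq_zero _ _ hin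
  rw [mem_ball_zero_iff]
  have h2 : ‖psi i0 i1 s μ‖ * ‖psi i0 i1 s μ‖ < 1 := by
    rw [psi, h1, norm_smul, norm_smul]
    simp only [PiLp.norm_single, norm_one, mul_one, norm_div, norm_mul,
      Complex.norm_ofNat]
    have h4 : 0 < ‖s + 3‖ := norm_pos_iff.2 h3
    have h5 : ‖μ‖ < 1 := by simpa using hμ
    have h6 : ‖s + 1‖ ^ 2 + 4 < ‖s + 3‖ ^ 2 := by
      rw [Complex.sq_norm, Complex.sq_norm, Complex.normSq_apply, Complex.normSq_apply]
      have : -1 < s.re := hs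
      simp
      nlinarith
    have h7 : ‖μ‖ * ‖μ‖ ≤ 1 := by nlinarith [norm_nonneg μ]
    rw [div_mul_div_comm, div_mul_div_comm, ← add_div, div_lt_one (by positivity)]
    nlinarith
  nlinarith [norm_nonneg (psi i0 i1 s μ)]

lemma psi_diff1 (μ : ℂ) : DifferentiableOn ℂ (fun s => psi i0 i1 s μ) HP := by
  intro s hs
  have h3 := add_three_ne hs
  refine DifferentiableAt.differentiableWithinAt ?_
  unfold psi
  fun_prop (disch := exact h3)

lemma psi_diff2 (s : ℂ) : Differentiable ℂ (fun μ => psi i0 i1 s μ) := by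
  unfold psi
  fun_prop

open Classical in
/-- extension by zero -/
noncomputable def extz (f : C(closedBall (0 : EuclideanSpace ℂ (Fin n)) 1, ℂ))
    (z : EuclideanSpace ℂ (Fin n)) : ℂ :=
  if h : z ∈ closedBall (0 : EuclideanSpace ℂ (Fin n)) 1 then f ⟨z, h⟩ else 0

lemma extz_of_mem (f : C(closedBall (0 : EuclideanSpace ℂ (Fin n)) 1, ℂ))
    {z : EuclideanSpace ℂ (Fin n)} (h : z ∈ closedBall (0 : EuclideanSpace ℂ (Fin n)) 1) :
    extz f z = f ⟨z, h⟩ := by
  simp only [extz, dif_pos h]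

/-- pull back to half plane times disc -/
noncomputable def TT (A : Subalgebra ℂ C(closedBall (0 : EuclideanSpace ℂ (Fin n)) 1, ℂ))
    (i0 i1 : Fin n) : A →ₙ+* (ℂ → ℂ → ℂ) where
  toFun f s μ := extz f.1 (psi i0 i1 s μ)
  map_mul' f g := by
    funext s μ
    simp only [extz, Pi.mul_apply]
    split_ifs <;> simp
  map_zero' := by
    funext s μ
    simp only [extz, Pi.zero_apply]
    split_ifs <;> simp
  map_add' f g := by
    funext s μ
    simp only [extz, Pi.add_apply]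
    split_ifs <;> simp

lemma TT_apply (A : Subalgebra ℂ C(closedBall (0 : EuclideanSpace ℂ (Fin n)) 1, ℂ))
    (h : i0 ≠ i1) (f : A) {s μ : ℂ} (hs : s ∈ HP) (hμ : μ ∈ ball (0 : ℂ) 1) :
    TT A i0 i1 f s μ = f.1 ⟨psi i0 i1 s μ, ball_subset_closedBall (psi_mem h hs hμ)⟩ :=
  extz_of_mem _ _

lemma TT_Cl (A : Subalgebra ℂ C(closedBall (0 : EuclideanSpace ℂ (Fin n)) 1, ℂ))
    (hA : ∀ f : C(closedBall (0 : EuclideanSpace ℂ (Fin n)) 1, ℂ),
      f ∈ A ↔ ∃ g : EuclideanSpace ℂ (Fin n) → ℂ,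
        DifferentiableOn ℂ g (ball (0 : EuclideanSpace ℂ (Fin n)) 1) ∧
        ∀ x : closedBall (0 : EuclideanSpace ℂ (Fin n)) 1, f x = g x)
    (h : i0 ≠ i1) (f : A) : Cl ‖f‖ (TT A i0 i1 f) := by
  obtain ⟨g, hg, hfg⟩ := (hA f.1).1 f.2
  refine ⟨fun μ hμ => ?_, fun s hs => ?_, fun s hs μ hμ => ?_⟩
  · refine (hg.comp (psi_diff1 (i0 := i0) (i1 := i1) μ) (fun s hs => psi_mem h hs hμ)).congr ?_
    intro s hs
    rw [TT_apply A h f hs hμ, hfg]; rfl
  · refine (hg.comp (psi_diff2 (i0 := i0) (i1 := i1) s).differentiableOn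
      (fun μ hμ => psi_mem h hs hμ)).congr ?_
    intro μ hμ
    rw [TT_apply A h f hs hμ, hfg]; rfl
  · rw [TT_apply A h f hs hμ]
    exact f.1.norm_coe_le_norm _

/-- the generators -/
noncomputable def uu (i0 i1 : Fin n) (j : ℕ) :
    C(closedBall (0 : EuclideanSpace ℂ (Fin n)) 1, ℂ) where
  toFun z := (z.1 i1) ^ j * sing (ex j) (z.1 i0)
  continuous_toFun := by
    refine Continuous.mul (by fun_prop) ?_
    refine (sing_contOn (ex_pos j).le).comp_continuous (by fun_prop) (fun z => ?_)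
    rw [mem_closedBall_zero_iff]
    exact (PiLp.norm_apply_le z.1 i0).trans (mem_closedBall_zero_iff.1 z.2)

lemma uu_diff (i0 i1 : Fin n) (j : ℕ) :
    DifferentiableOn ℂ (fun z : EuclideanSpace ℂ (Fin n) => (z i1) ^ j * sing (ex j) (z i0))
      (ball 0 1) := by
  intro z hz
  refine DifferentiableAt.differentiableWithinAt ?_
  have h1 : ∀ i, Differentiable ℂ (fun z : EuclideanSpace ℂ (Fin n) => z i) := fun i =>
    (EuclideanSpace.proj i : EuclideanSpace ℂ (Fin n) →L[ℂ] ℂ).differentiable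
  refine DifferentiableAt.mul ((h1 i1 z).pow j) ?_
  have h2 : z i0 ≠ 1 := by
    intro h
    have h3 := (PiLp.norm_apply_le z i0).trans_lt (mem_ball_zero_iff.1 hz)
    rw [h] at h3
    simp at h3
  exact (sing_diff (ex j) h2).comp z (h1 i0 z)

lemma eq_single_of_coord {w : EuclideanSpace ℂ (Fin n)} (hw : ‖w‖ ≤ 1) (h : w i0 = 1) :
    w = EuclideanSpace.single i0 (1 : ℂ) := by
  have h1 := norm_sub_sq (𝕜 := ℂ) w (EuclideanSpace.single i0 (1 : ℂ))
  rw [EuclideanSpace.inner_single_right, h] at h1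
  simp only [PiLp.norm_single, norm_one, map_one, mul_one, RCLike.one_re] at h1
  have h2 : ‖w‖ ^ 2 ≤ 1 := by nlinarith [norm_nonneg w]
  have h3 : ‖w - EuclideanSpace.single i0 (1 : ℂ)‖ ^ 2 ≤ 0 := by linarith
  have h4 : ‖w - EuclideanSpace.single i0 (1 : ℂ)‖ = 0 :=
    pow_eq_zero_iff (two_ne_zero) |>.1 (le_antisymm h3 (sq_nonneg _))
  exact sub_eq_zero.1 (norm_eq_zero.1 h4)

lemma uu_psi (h : i0 ≠ i1) (j : ℕ) {s μ : ℂ} (hs : s ∈ HP) :
    (psi i0 i1 s μ i1) ^ j * sing (ex j) (psi i0 i1 s μ i0) =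
      μ ^ j * ((2 ^ (j + 1) * Complex.exp (-(ex j * 2))) * Complex.exp (-(ex j * s)) /
        (s + 3) ^ (j + 1)) := by
  have h3 := add_three_ne hs
  rw [psi_i0 h, psi_i1 h, sing]
  have h1 : 1 - (s + 1) / (s + 3) = 2 / (s + 3) := by field_simp; ring
  have h2 : (1 + (s + 1) / (s + 3)) / (2 / (s + 3)) = 2 + s := by field_simp; ring
  rw [h1, h2, mul_add, neg_add, Complex.exp_add, div_pow, mul_pow]
  field_simp
  ring

end

theorem ball_main (n : ℕ) (hn : 2 ≤ n)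
    (A : Subalgebra ℂ C(closedBall (0 : EuclideanSpace ℂ (Fin n)) 1, ℂ))
    (hA : ∀ f : C(closedBall (0 : EuclideanSpace ℂ (Fin n)) 1, ℂ),
      f ∈ A ↔ ∃ g : EuclideanSpace ℂ (Fin n) → ℂ,
        DifferentiableOn ℂ g (ball (0 : EuclideanSpace ℂ (Fin n)) 1) ∧
        ∀ x : closedBall (0 : EuclideanSpace ℂ (Fin n)) 1, f x = g x) :
    ∃ ζ : closedBall (0 : EuclideanSpace ℂ (Fin n)) 1,
      ‖(ζ : EuclideanSpace ℂ (Fin n))‖ = 1 ∧
      ∃ J : Ideal A, IsClosed (J : Set A) ∧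
        (∀ w : closedBall (0 : EuclideanSpace ℂ (Fin n)) 1,
          (∀ f ∈ J, (f : C(closedBall (0 : EuclideanSpace ℂ (Fin n)) 1, ℂ)) w = 0) ↔ w = ζ) ∧
        ∀ I : Ideal A, I.FG → closure (I : Set A) ≠ (J : Set A) := by
  let i0 : Fin n := ⟨0, by omega⟩
  let i1 : Fin n := ⟨1, by omega⟩
  have h01 : i0 ≠ i1 := by simp [i0, i1]
  let ζ : closedBall (0 : EuclideanSpace ℂ (Fin n)) 1 :=
    ⟨EuclideanSpace.single i0 (1 : ℂ), by simp⟩
  let u : ℕ → A := fun j => ⟨uu i0 i1 j, (hA _).2 ⟨_, uu_diff i0 i1 j, fun _ => rfl⟩⟩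
  have hT := TT_Cl A hA h01
  obtain ⟨hu, hmain⟩ := abs_main (TT A i0 i1) hT u
    (fun j => 2 ^ (j + 1) * Complex.exp (-(ex j * 2)))
    (fun j => mul_ne_zero (pow_ne_zero _ two_ne_zero) (Complex.exp_ne_zero _))
    (fun j s hs μ hμ => by
      rw [TT_apply A h01 _ hs hμ]
      exact uu_psi h01 j hs)
  let M : Ideal A :=
    { carrier := {f | f.1 ζ = 0}
      add_mem' := fun {f g} hf hg => by
        simp only [mem_ofPred_eq] at hf hg ⊢
        simp [hf, hg]
      zero_mem' := by simp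
      smul_mem' := fun g f hf => by
        simp only [mem_ofPred_eq] at hf ⊢
        simp [hf] }
  have hM : IsClosed (M : Set A) :=
    isClosed_eq ((continuous_eval_const ζ).comp continuous_subtype_val) continuous_const
  have huM : ∀ j, u j ∈ M := by
    intro j
    change (ζ.1 i1) ^ j * sing (ex j) (ζ.1 i0) = 0
    rw [sing_eq_zero.2 (by simp [ζ]), mul_zero]
  let J1 : Ideal A := J0 (A := A) (TT A i0 i1) hT
  refine ⟨ζ, by simp [ζ], J1 ⊓ M, ?_, fun w => ⟨fun hw => ?_, ?_⟩, ?_⟩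
  · exact (isClosed_J0 _ hT).inter hM
  · have h1 := hw (u 0) ⟨hu 0, huM 0⟩
    change (w.1 i1) ^ 0 * sing (ex 0) (w.1 i0) = 0 at h1
    rw [pow_zero, one_mul, sing_eq_zero] at h1
    exact Subtype.ext (eq_single_of_coord (mem_closedBall_zero_iff.1 w.2) h1)
  · rintro rfl f hf
    exact hf.2
  · intro I hI hcl
    refine hmain I hI (fun f hf => ?_) (fun j => ?_)
    · have : f ∈ closure (I : Set A) := subset_closure hf
      rw [hcl] at this
      exact this.1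
    · rw [hcl]
      exact ⟨hu j, huM j⟩

end Pool.Agent.MP_d61c0a_an.H5
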